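import Pool.Agent.Helper44.GJ.Stmts

/-!
GJ, module GRW: growth of the potential, uniformly near an injective matrix.
-/

open Finset MeasureTheory Filter Topology Matrix
open scoped ENNReal ContDiff NNReal

namespace Pool.Agent.Helper44.GJ

open Pool.Agent.Helper44.GF Pool.Agent.Helper44.GN Pool.Agent.Helper44.GH

theorem st_GRW : ST_GRW := by
  intro n m V hV
  have hker : LinearMap.ker V.mulVecLin = ⊥ := LinearMap.ker_eq_bot.mpr hV
  obtain ⟨K, hK, hA⟩ := V.mulVecLin.exists_antilipschitzWith hker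
  have hK' : (0 : ℝ) < K := by exact_mod_cast hK
  have h0 : ∀ x : Fin m → ℝ, ‖x‖ ≤ K * ‖V.mulVec x‖ := by
    intro x
    have h1 := hA.le_mul_dist x 0
    rw [map_zero, dist_zero_right, dist_zero_right] at h1
    exact h1
  have hm : (0 : ℝ) < (m : ℝ) + 1 := by positivity
  have key : ∀ W : Matrix (Fin n) (Fin m) ℝ, (∀ i a, |W i a - V i a| < 1 / (2 * K * (m + 1))) →
      ∀ x : Fin m → ℝ, 1 / (2 * K) * ‖x‖ ≤ ‖W.mulVec x‖ := by
    intro W hW x
    have h1 : ‖(V - W).mulVec x‖ ≤ (m : ℝ) * (1 / (2 * K * (m + 1)) * ‖x‖) := by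
      rw [pi_norm_le_iff_of_nonneg (by positivity)]
      intro i
      rw [Real.norm_eq_abs]
      unfold Matrix.mulVec dotProduct
      refine (Finset.abs_sum_le_sum_abs _ _).trans
        ((Finset.sum_le_card_nsmul _ _ (1 / (2 * K * (m + 1)) * ‖x‖) fun a _ => ?_).trans (le_of_eq ?_))
      · have h3 : |(V - W) i a * x a| = |W i a - V i a| * |x a| := by
          rw [abs_mul, Matrix.sub_apply, abs_sub_comm]
        exact h3.le.trans (mul_le_mul (hW i a).le (norm_le_pi_norm x a) (abs_nonneg _) (by positivity))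
      · rw [nsmul_eq_mul, Finset.card_univ, Fintype.card_fin]
    have h2 : V.mulVec x = W.mulVec x + (V - W).mulVec x := by
      rw [← Matrix.add_mulVec]
      congr 1
      abel
    have h3 : ‖V.mulVec x‖ ≤ ‖W.mulVec x‖ + ‖(V - W).mulVec x‖ := by
      rw [h2]
      exact norm_add_le _ _
    have h4 : 1 / K * ‖x‖ ≤ ‖V.mulVec x‖ := by
      have h5 := h0 x
      rw [one_div, inv_mul_le_iff₀ hK']
      exact h5
    have h6 : (m : ℝ) * (1 / (2 * K * (m + 1)) * ‖x‖) ≤ 1 / (2 * K) * ‖x‖ := by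
      have h7 : (m : ℝ) * (1 / (2 * K * (m + 1)) * ‖x‖) = (m / (m + 1)) * (1 / (2 * K) * ‖x‖) := by
        field_simp
      rw [h7]
      have h8 : (m : ℝ) / (m + 1) ≤ 1 := by
        rw [div_le_one hm]
        linarith
      have h9 : 0 ≤ 1 / (2 * (K : ℝ)) * ‖x‖ := by positivity
      nlinarith
    have h10 : 1 / K * ‖x‖ = 2 * (1 / (2 * (K : ℝ)) * ‖x‖) := by
      field_simp
    linarith
  refine ⟨1 / (2 * K * (m + 1)), 1 / (2 * K), by positivity, by positivity, fun W hW x => ⟨key W hW x, ?_⟩⟩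
  intro p hp
  have h1 := key W hW x
  rcases (show 0 ≤ 1 / (2 * (K : ℝ)) * ‖x‖ by positivity).eq_or_lt with h2 | h2
  · rw [← h2, Real.zero_rpow hp.ne']
    exact Finset.sum_nonneg fun i _ => by positivity
  · by_contra hc
    push Not at hc
    have h3 : ‖W.mulVec x‖ < 1 / (2 * K) * ‖x‖ := by
      rw [pi_norm_lt_iff h2]
      intro i
      rw [Real.norm_eq_abs]
      by_contra h4
      push Not at h4
      have h5 : (1 / (2 * K) * ‖x‖) ^ p ≤ |W.mulVec x i| ^ p := Real.rpow_le_rpow h2.le h4 hp.le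
      have h6 : |W.mulVec x i| ^ p ≤ Ph p W x :=
        Finset.single_le_sum (f := fun i => |W.mulVec x i| ^ p) (fun i _ => by positivity) (Finset.mem_univ i)
      linarith
    linarith

end Pool.Agent.Helper44.GJ
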